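import Pool.Agent.Helper96.BT.Defs

/-!
# BT, O1 and O2: the changes of the blocks of a row, from orbits to inputs
-/

set_option autoImplicit false
set_option linter.unusedSectionVars false

namespace Pool.Agent.Helper66.BT

open Finset Pool.Agent.Helper19.NF Pool.Agent.Helper74.NW Pool.Agent.Helper96.BT
open Pool.Agent.Helper74.NE (fine fine_apply)
open Pool.Agent.Helper99.NQ (pos)

section cont

variable {D m : ℕ} {F B W : Type} [Field F] [AddCommGroup B] [AddCommGroup W] [Module F W] [Fintype W]

theorem cont_add (y z : W → F) : cont (y + z) = cont y + cont z := by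
  unfold cont
  rw [← Finset.sum_add_distrib]
  refine Finset.sum_congr rfl fun l _ => ?_
  rw [Pi.add_apply, add_smul]

theorem cont_zero : cont (0 : W → F) = 0 := by
  unfold cont
  refine Finset.sum_eq_zero fun l _ => ?_
  rw [Pi.zero_apply, zero_smul]

theorem tab_add (enc : W →+ (Fin D × Fin m → B)) (I J : B × W → F) : tab enc (I + J) = tab enc I + tab enc J := by
  funext b
  unfold tab
  rw [Pi.add_apply, ← map_add, ← cont_add]
  rfl

end cont

section mv

variable {n D m : ℕ} {F B W : Type} [Field F] [AddCommGroup B] [AddCommGroup W] [Module F W] [Fintype W]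
  {enc : W →+ (Fin D × Fin m → B)}

theorem mv_apply {v : Fin n × Fin m → B} (hv : Function.Injective v) (x : Ch n m F W)
    (c : Fin n × Fin m) (l : W) : mv v x (v c, l) = x c l := by
  classical
  unfold mv
  rw [sum_eq_single c]
  · rw [if_pos rfl]
  · intro c' _ h
    rw [if_neg fun h' => h (hv h').symm]
  · intro h
    exact absurd (mem_univ _) h

theorem mv_of_ne {v : Fin n × Fin m → B} (x : Ch n m F W) {b : B} (hb : ∀ c, b ≠ v c)
    (l : W) : mv v x (b, l) = 0 := by
  classical
  unfold mv
  exact sum_eq_zero fun c _ => if_neg (hb c)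

theorem mv_neg (v : Fin n × Fin m → B) (x : Ch n m F W) : mv v (-x) = -mv v x := by
  classical
  funext z
  rw [Pi.neg_apply]
  unfold mv
  rw [← sum_neg_distrib]
  refine sum_congr rfl fun c _ => ?_
  split_ifs
  · rfl
  · rw [neg_zero]

theorem tab_mv_apply {v : Fin n × Fin m → B} (hv : Function.Injective v) (x : Ch n m F W)
    (c : Fin n × Fin m) : tab enc (mv v x) (v c) = enc (cont (x c)) := by
  unfold tab
  congr 2
  funext l
  exact mv_apply hv x c l

theorem moved {v : Fin n × Fin m → B} (x : Ch n m F W) (b : B) (hb : tab enc (mv v x) b ≠ 0) :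
    ∃ c, b = v c := by
  by_contra h
  push Not at h
  refine hb ?_
  unfold tab
  have h1 : (fun l => mv v x (b, l)) = (0 : W → F) := by
    funext l
    exact mv_of_ne x h l
  rw [h1, cont_zero, map_zero]

variable {g : Fin D → Equiv.Perm (Fin n)} {x0 : Fin n × Fin m → B} {i : ℕ} [NeZero m]
  {I : B × W → F}

theorem cf_inj (h : CF (fine g) x0 i (tab enc I)) : Function.Injective (val (fine g) x0 (tab enc I) i) :=
  fun c c' e => (h i i c c' le_rfl le_rfl e).2

theorem val_act (h : CF (fine g) x0 i (tab enc I)) (x : Ch n m F W) {j : ℕ} (hj : j ≤ i)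
    (u : Fin n × Fin m) :
    val (fine g) x0 (tab enc (act enc g x0 i I x)) j u = val (fine g) x0 (tab enc I) j u := by
  unfold act
  rw [tab_add]
  exact val_add h _ (moved x) j hj u

theorem val_act' (h : CF (fine g) x0 i (tab enc I)) (x : Ch n m F W) :
    val (fine g) x0 (tab enc (act enc g x0 i I x)) i = val (fine g) x0 (tab enc I) i :=
  funext fun u => val_act h x le_rfl u

theorem cf_act (h : CF (fine g) x0 i (tab enc I)) (x : Ch n m F W) :
    CF (fine g) x0 i (tab enc (act enc g x0 i I x)) := by
  unfold act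
  rw [tab_add]
  exact CF_add h _ (moved x)

variable (enc) in
/-- O1: the letters after a change of the blocks of row `i`. -/
theorem val_act_succ (h : CF (fine g) x0 i (tab enc I)) (x : Ch n m F W) (u : Fin n × Fin m) :
    val (fine g) x0 (tab enc (act enc g x0 i I x)) (i + 1) u =
      val (fine g) x0 (tab enc I) (i + 1) u + lam enc g x u := by
  unfold act
  rw [tab_add, val_add_succ h _ (moved x)]
  congr 1
  unfold lam
  refine sum_congr rfl fun s _ => ?_
  rw [tab_mv_apply (cf_inj h)]

theorem act_neg (h : CF (fine g) x0 i (tab enc I)) (x : Ch n m F W) :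
    act enc g x0 i (act enc g x0 i I x) (-x) = I := by
  show act enc g x0 i I x + mv (val (fine g) x0 (tab enc (act enc g x0 i I x)) i) (-x) = I
  rw [val_act' h, mv_neg]
  unfold act
  rw [add_assoc, add_neg_cancel, add_zero]

/-- Two changed inputs agree outside the cells of row `i` whose changes are different. -/
theorem act_congr (h : CF (fine g) x0 i (tab enc I)) (x x' : Ch n m F W) (z : B × W)
    (hz : ∀ c, val (fine g) x0 (tab enc I) i c = z.1 → x c z.2 = x' c z.2) :
    act enc g x0 i I x z = act enc g x0 i I x' z := by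
  obtain ⟨b, l⟩ := z
  unfold act
  rw [Pi.add_apply, Pi.add_apply]
  congr 1
  by_cases hb : ∃ c, b = val (fine g) x0 (tab enc I) i c
  · obtain ⟨c, rfl⟩ := hb
    rw [mv_apply (cf_inj h), mv_apply (cf_inj h)]
    exact hz c rfl
  · push Not at hb
    rw [mv_of_ne x hb, mv_of_ne x' hb]

theorem act_zero : act enc g x0 i I 0 = I := by
  classical
  unfold act
  have h1 : mv (val (fine g) x0 (tab enc I) i) (0 : Ch n m F W) = 0 := by
    funext z
    unfold mv
    exact sum_eq_zero fun c _ => by split_ifs <;> rfl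
  rw [h1, add_zero]

end mv

section free

variable {C : Type} [Fintype C]

open Classical in
theorem free_append (a b : List C) : free (a ++ b) = free a ∩ free b := by
  unfold free
  ext z
  simp only [mem_filter, mem_univ, true_and, mem_inter, List.mem_append, not_or]

theorem mem_free {c : List C} {z : C} : z ∈ free c ↔ z ∉ c := by
  classical
  unfold free
  simp only [mem_filter, mem_univ, true_and]

end free

section average

variable {n D m : ℕ} [NeZero m] {F B W : Type} [Field F] [Fintype F] [AddCommGroup B] [AddCommGroup W]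
  [Module F W] [Fintype W] [Fintype B] (enc : W →+ (Fin D × Fin m → B))

/-- The inputs with a property, counted in the orbits. -/
theorem card_mul (g : Fin D → Equiv.Perm (Fin n)) (x0 : Fin n × Fin m → B) (i : ℕ)
    (Q : (B × W → F) → Prop) (hQ : ∀ I, Q I → CF (fine g) x0 i (tab enc I)) :
    Nat.card {I // Q I} * Nat.card (Ch n m F W) =
      ∑ᶠ I : {I : B × W → F // CF (fine g) x0 i (tab enc I)},
        Nat.card {x : Ch n m F W // Q (act enc g x0 i I.1 x)} := by
  classical
  let V : Type := B × W → F
  let Y : Type := Ch n m F W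
  have hFinV : Fintype V := Fintype.ofFinite V
  have hFinY : Fintype Y := Fintype.ofFinite Y
  let PP : Type := {p' : V × Y // CF (fine g) x0 i (tab enc p'.1) ∧ Q (act enc g x0 i p'.1 p'.2)}
  have e1 : {I : V // Q I} × Y ≃ PP :=
    { toFun := fun q => ⟨(act enc g x0 i q.1.1 (-q.2), q.2), cf_act (hQ _ q.1.2) _, by
        have h := act_neg (hQ _ q.1.2) (-q.2)
        rw [neg_neg] at h
        show Q (act enc g x0 i (act enc g x0 i q.1.1 (-q.2)) q.2)
        rw [h]
        exact q.1.2⟩
      invFun := fun q => (⟨act enc g x0 i q.1.1 q.1.2, q.2.2⟩, q.1.2)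
      left_inv := by
        rintro ⟨⟨I, hI⟩, y⟩
        have h := act_neg (hQ _ hI) (-y)
        rw [neg_neg] at h
        exact Prod.ext (Subtype.ext h) rfl
      right_inv := by
        rintro ⟨⟨I, y⟩, h1, h2⟩
        exact Subtype.ext (Prod.ext (act_neg h1 y) rfl) }
  have e2 : PP ≃ Σ I : {I : V // CF (fine g) x0 i (tab enc I)}, {y : Y // Q (act enc g x0 i I.1 y)} :=
    { toFun := fun q => ⟨⟨q.1.1, q.2.1⟩, ⟨q.1.2, q.2.2⟩⟩
      invFun := fun q => ⟨(q.1.1, q.2.1), q.1.2, q.2.2⟩
      left_inv := fun q => rfl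
      right_inv := fun q => rfl }
  have h1' : Nat.card {I : V // Q I} * Nat.card Y = Nat.card PP := by
    rw [← Nat.card_congr e1]
    exact (Nat.card_prod _ _).symm
  rw [h1', Nat.card_congr e2, Nat.card_eq_fintype_card, Fintype.card_sigma, finsum_eq_sum_of_fintype]
  refine sum_congr rfl fun I _ => ?_
  rw [Nat.card_eq_fintype_card]

/-- O2: from orbits to inputs, for two properties. -/
theorem average2 (g : Fin D → Equiv.Perm (Fin n)) (x0 : Fin n × Fin m → B) (i : ℕ)
    (Q Q' : (B × W → F) → Prop) (hQ : ∀ I, Q I → CF (fine g) x0 i (tab enc I))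
    (hQ' : ∀ I, Q' I → CF (fine g) x0 i (tab enc I)) (c δ : ℝ) (hδ : 0 ≤ δ)
    (h5 : ∀ I : B × W → F, CF (fine g) x0 i (tab enc I) →
      (Nat.card {x : Ch n m F W // Q (act enc g x0 i I x)} : ℝ) ≤
        Nat.card {x : Ch n m F W // Q' (act enc g x0 i I x)} / c + δ * Nat.card (Ch n m F W)) :
    (Nat.card {I // Q I} : ℝ) ≤ Nat.card {I // Q' I} / c + δ * Nat.card (B × W → F) := by
  classical
  have h1 := card_mul enc g x0 i Q hQ
  have h2 := card_mul enc g x0 i Q' hQ'
  have hFin : Fintype (B × W → F) := Fintype.ofFinite _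
  rw [finsum_eq_sum_of_fintype] at h1 h2
  have h3 : (0 : ℝ) < Nat.card (Ch n m F W) := by
    have : Nonempty (Ch n m F W) := ⟨0⟩
    exact_mod_cast Nat.card_pos
  refine le_of_mul_le_mul_right ?_ h3
  have h1' : (Nat.card {I // Q I} : ℝ) * Nat.card (Ch n m F W) =
      ∑ I : {I : B × W → F // CF (fine g) x0 i (tab enc I)},
        (Nat.card {x : Ch n m F W // Q (act enc g x0 i I.1 x)} : ℝ) := by exact_mod_cast h1
  have h2' : (Nat.card {I // Q' I} : ℝ) * Nat.card (Ch n m F W) =
      ∑ I : {I : B × W → F // CF (fine g) x0 i (tab enc I)},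
        (Nat.card {x : Ch n m F W // Q' (act enc g x0 i I.1 x)} : ℝ) := by exact_mod_cast h2
  rw [h1', add_mul, div_mul_eq_mul_div, h2']
  have h6 : (Fintype.card {I : B × W → F // CF (fine g) x0 i (tab enc I)} : ℝ) ≤
      Nat.card (B × W → F) := by
    rw [Nat.card_eq_fintype_card]
    exact_mod_cast Fintype.card_subtype_le _
  calc ∑ I : {I : B × W → F // CF (fine g) x0 i (tab enc I)},
        (Nat.card {x : Ch n m F W // Q (act enc g x0 i I.1 x)} : ℝ)
      ≤ ∑ I : {I : B × W → F // CF (fine g) x0 i (tab enc I)},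
        ((Nat.card {x : Ch n m F W // Q' (act enc g x0 i I.1 x)} : ℝ) / c + δ * Nat.card (Ch n m F W)) :=
        sum_le_sum fun I _ => h5 I.1 I.2
    _ = (∑ I : {I : B × W → F // CF (fine g) x0 i (tab enc I)},
        (Nat.card {x : Ch n m F W // Q' (act enc g x0 i I.1 x)} : ℝ)) / c +
        Fintype.card {I : B × W → F // CF (fine g) x0 i (tab enc I)} * (δ * Nat.card (Ch n m F W)) := by
        rw [sum_add_distrib, sum_div, sum_const, card_univ, nsmul_eq_mul]
    _ ≤ _ := by
        refine add_le_add le_rfl ?_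
        calc (Fintype.card {I : B × W → F // CF (fine g) x0 i (tab enc I)} : ℝ) *
              (δ * Nat.card (Ch n m F W)) ≤ Nat.card (B × W → F) * (δ * Nat.card (Ch n m F W)) :=
            mul_le_mul_of_nonneg_right h6 (mul_nonneg hδ h3.le)
          _ = δ * Nat.card (B × W → F) * Nat.card (Ch n m F W) := by ring

end average

end Pool.Agent.Helper66.BT
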